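import Pool.Agent.W988.RA.Defs

/-! Part RA-HOL of project RA (helper988, MP_6acab6_an). -/

open MeasureTheory
open scoped ENNReal BigOperators

set_option autoImplicit false

namespace Pool.Agent.W418.RA.Hol

open Pool.Agent.W988.RA

variable {n : ℕ}

/-- coordinatewise product with a sign vector -/
def tw (ε : Fin n → Bool) (z : Fin n → ℝ) : Fin n → ℝ := fun k => z k * sg ε k

theorem sg_mul_self (ε : Fin n → Bool) (k : Fin n) : sg ε k * sg ε k = 1 := by
  unfold sg; split_ifs <;> norm_num

theorem sg_ne (ε : Fin n → Bool) (k : Fin n) : sg ε k ≠ 0 := by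
  unfold sg; split_ifs <;> norm_num

theorem tw_tw (ε : Fin n → Bool) (z : Fin n → ℝ) : tw ε (tw ε z) = z := by
  funext k
  simp only [tw]
  rw [mul_assoc, sg_mul_self, mul_one]

theorem tw_add (ε : Fin n → Bool) (z w : Fin n → ℝ) : tw ε (z + w) = tw ε z + tw ε w := by
  funext k; simp [tw, add_mul]

theorem tw_smul (ε : Fin n → Bool) (c : ℝ) (z : Fin n → ℝ) : tw ε (c • z) = c • tw ε z := by
  funext k; simp [tw, mul_assoc]

theorem tw_mp (ε : Fin n → Bool) : MeasurePreserving (tw ε) volume volume := by
  refine volume_preserving_pi (f := fun k (x : ℝ) => x * sg ε k) fun k => ?_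
  unfold sg
  split_ifs
  · simp only [mul_one]
    exact MeasurePreserving.id (volume : Measure ℝ)
  · simpa using Measure.measurePreserving_neg (volume : Measure ℝ)

theorem av_const (c : ℝ) : av (fun _ : Fin n → Bool => c) = c := by
  simp [av, Finset.card_univ]

theorem av_le {f h : (Fin n → Bool) → ℝ} (H : ∀ ε, f ε ≤ h ε) : av f ≤ av h :=
  div_le_div_of_nonneg_right (Finset.sum_le_sum fun ε _ => H ε) (by positivity)

theorem av_add (f h : (Fin n → Bool) → ℝ) : av (fun ε => f ε + h ε) = av f + av h := by
  simp [av, Finset.sum_add_distrib, add_div]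

theorem av_mul (c : ℝ) (f : (Fin n → Bool) → ℝ) : av (fun ε => c * f ε) = c * av f := by
  simp [av, ← Finset.mul_sum, mul_div_assoc]

/-- flip of one coordinate -/
def flip (k : Fin n) (ε : Fin n → Bool) : Fin n → Bool := Function.update ε k (!(ε k))

theorem flip_inv (k : Fin n) : Function.Involutive (flip k) := by
  intro ε
  funext j
  by_cases h : j = k
  · subst h; simp [flip]
  · simp [flip, Function.update_of_ne h]

theorem av_flip (k : Fin n) (f : (Fin n → Bool) → ℝ) : av (fun ε => f (flip k ε)) = av f := by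
  unfold av
  congr 1
  exact Equiv.sum_comp (flip_inv k).toPerm f

section

variable (g : (Fin n → ℝ) → ℝ)

/-- the unconditional average of `g` -/
noncomputable def gav (z : Fin n → ℝ) : ℝ := av fun ε => g (tw ε z)

variable {g} (h0 : ∀ x, g x = 0 → x = 0) (hs : ∀ (c : ℝ) (x : Fin n → ℝ), g (c • x) = |c| * g x)
  (ha : ∀ x y, g (x + y) ≤ g x + g y)

include hs in
theorem g_zero : g 0 = 0 := by
  have := hs 0 0
  simpa using this

include hs in
theorem g_neg (x : Fin n → ℝ) : g (-x) = g x := by
  have := hs (-1) x
  simpa using this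

include hs ha in
theorem g_nonneg (x : Fin n → ℝ) : 0 ≤ g x := by
  have h1 := ha x (-x)
  rw [add_neg_cancel, g_zero hs, g_neg hs] at h1
  linarith

include hs in
theorem gav_smul (c : ℝ) (x : Fin n → ℝ) : gav g (c • x) = |c| * gav g x := by
  unfold gav
  rw [← av_mul]
  congr 1
  funext ε
  rw [tw_smul, hs]

include ha in
theorem gav_add (x y : Fin n → ℝ) : gav g (x + y) ≤ gav g x + gav g y := by
  unfold gav
  rw [← av_add]
  refine av_le fun ε => ?_
  rw [tw_add]
  exact ha _ _

include h0 hs ha in
theorem gav_def (x : Fin n → ℝ) (hx : gav g x = 0) : x = 0 := by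
  unfold gav av at hx
  have h1 : ∑ ε : Fin n → Bool, g (tw ε x) = 0 := by
    rcases div_eq_zero_iff.1 hx with h | h
    · exact h
    · exact absurd h (by positivity)
  have h2 := (Finset.sum_eq_zero_iff_of_nonneg fun ε _ => g_nonneg hs ha _).1 h1
    (fun _ => true) (Finset.mem_univ _)
  have h3 := h0 _ h2
  rw [← tw_tw (fun _ => true) x, h3]
  funext k; simp [tw]

theorem gav_upd (k : Fin n) (z : Fin n → ℝ) (s : ℝ) :
    gav g (Function.update z k (-s)) = gav g (Function.update z k s) := by
  unfold gav
  rw [← av_flip k fun ε => g (tw ε (Function.update z k s))]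
  congr 1
  funext ε
  congr 1
  funext j
  by_cases h : j = k
  · subst h
    simp only [tw, Function.update_self, sg, flip]
    cases ε j <;> simp
  · simp [tw, sg, flip, Function.update_of_ne h]

include hs ha in
theorem gav_le_upd (k : Fin n) (z : Fin n → ℝ) (s : ℝ) (h0s : 0 < s) (hz : |z k| ≤ s) :
    gav g z ≤ gav g (Function.update z k s) := by
  obtain ⟨h1, h2⟩ := abs_le.1 hz
  have e : z = ((1 + z k / s) / 2) • Function.update z k s +
      ((1 - z k / s) / 2) • Function.update z k (-s) := by
    funext j
    by_cases h : j = k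
    · subst h
      simp only [Pi.add_apply, Pi.smul_apply, Function.update_self, smul_eq_mul]
      field_simp
      ring
    · simp only [Pi.add_apply, Pi.smul_apply, Function.update_of_ne h, smul_eq_mul]
      ring
  have ha1 : 0 ≤ (1 + z k / s) / 2 := by
    have : -1 ≤ z k / s := by rw [le_div_iff₀ h0s]; linarith
    linarith
  have hb1 : 0 ≤ (1 - z k / s) / 2 := by
    have : z k / s ≤ 1 := by rw [div_le_iff₀ h0s]; linarith
    linarith
  calc gav g z = gav g (((1 + z k / s) / 2) • Function.update z k s +
      ((1 - z k / s) / 2) • Function.update z k (-s)) := by rw [← e]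
    _ ≤ _ := gav_add ha _ _
    _ = gav g (Function.update z k s) := by
      rw [gav_smul hs, gav_smul hs, gav_upd, abs_of_nonneg ha1, abs_of_nonneg hb1]
      ring

include hs ha in
theorem gav_le_cube (z : Fin n → ℝ) (s : ℝ) (h0s : 0 < s) (hz : ∀ k, |z k| ≤ s) :
    gav g z ≤ s * av fun ε : Fin n → Bool => g (sg ε) := by
  have key : ∀ S : Finset (Fin n), gav g z ≤ gav g (fun k => if k ∈ S then s else z k) := by
    intro S
    induction S using Finset.induction_on with
    | empty => simp
    | insert k S hk ih =>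
      refine ih.trans ?_
      have e : (fun j => if j ∈ insert k S then s else z j) =
          Function.update (fun j => if j ∈ S then s else z j) k s := by
        funext j
        by_cases h : j = k
        · subst h; simp
        · simp [Finset.mem_insert, h]
      rw [e]
      refine gav_le_upd hs ha k _ s h0s ?_
      simp [hk, hz k]
  refine (key Finset.univ).trans (le_of_eq ?_)
  unfold gav
  rw [← av_mul]
  congr 1
  funext ε
  have e : tw ε (fun k => if k ∈ (Finset.univ : Finset (Fin n)) then s else z k) = s • sg ε := by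
    funext k; simp [tw]
  rw [e, hs, abs_of_pos h0s]

end

theorem result : S_HOL := by
  intro n g hn h0 hs ha
  have hg0 := g_nonneg hs ha
  have : Nonempty (Fin n) := ⟨⟨0, hn⟩⟩
  set ρ : ℝ := av fun ε : Fin n → Bool => g (sg ε) with hρ
  have hρpos : 0 < ρ := by
    rw [hρ]
    unfold av
    refine div_pos (Finset.sum_pos (fun ε _ => ?_) Finset.univ_nonempty) (by positivity)
    refine lt_of_le_of_ne (hg0 _) fun he => ?_
    have := congrFun (h0 _ he.symm) ⟨0, hn⟩
    exact sg_ne ε _ this
  -- the cube is in the unit ball of the average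
  have hcube : ENNReal.ofReal ((2 / ρ) ^ n) ≤ volume {z | gav g z < 1} := by
    have h1 := Real.volume_pi_ball (0 : Fin n → ℝ) (r := 1 / ρ) (by positivity)
    rw [Fintype.card_fin, mul_one_div] at h1
    rw [← h1]
    refine measure_mono fun z hz => ?_
    rw [mem_ball_zero_iff] at hz
    have h2 : ∀ k, |z k| ≤ (‖z‖ + 1 / ρ) / 2 := fun k => by
      have := norm_le_pi_norm z k
      rw [Real.norm_eq_abs] at this
      linarith
    have h3 : 0 < (‖z‖ + 1 / ρ) / 2 := by positivity
    refine (gav_le_cube hs ha z _ h3 h2).trans_lt ?_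
    have h4 : (‖z‖ + 1 / ρ) / 2 < 1 / ρ := by linarith
    calc (‖z‖ + 1 / ρ) / 2 * ρ < 1 / ρ * ρ := mul_lt_mul_of_pos_right h4 hρpos
      _ = 1 := by field_simp
  refine hcube.trans ?_
  -- the volume of the unit ball of a norm
  have hvol : ∀ f : (Fin n → ℝ) → ℝ, (∀ x, f x = 0 → x = 0) →
      (∀ (c : ℝ) (x : Fin n → ℝ), f (c • x) = |c| * f x) → (∀ x y, f (x + y) ≤ f x + f y) →
      volume {x | f x < 1} = ENNReal.ofReal ((∫ x, Real.exp (-f x)) / Real.Gamma (n + 1)) := by
    intro f f0 fs fa
    have := MeasureTheory.measure_lt_one_eq_integral_div_gamma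
      (volume : Measure (Fin n → ℝ)) (g := f) (g_zero fs) (g_neg fs) fa (fun {x} => f0 x)
      (fun r x => (fs r x).le) (p := 1) one_pos
    simpa [Real.rpow_one] using this
  have hvg := hvol g h0 hs ha
  have hvg' := hvol (gav g) (gav_def h0 hs ha) (gav_smul hs) (gav_add ha)
  rw [hvg, hvg']
  refine ENNReal.ofReal_le_ofReal (div_le_div_of_nonneg_right ?_
    (Real.Gamma_pos_of_pos (by positivity)).le)
  -- integrability
  have hint : Integrable fun x : Fin n → ℝ => Real.exp (-g x) := by
    by_contra hcon
    rw [integral_undef hcon, zero_div, ENNReal.ofReal_zero] at hvg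
    -- `{g < 1}` contains a small cube
    set c : ℝ := ∑ k : Fin n, g (Pi.single k 1) with hc
    have hc0 : 0 ≤ c := Finset.sum_nonneg fun k _ => hg0 _
    have hle : ∀ x : Fin n → ℝ, g x ≤ ‖x‖ * c := by
      intro x
      have key : ∀ S : Finset (Fin n), g (∑ k ∈ S, x k • (Pi.single k (1 : ℝ) : Fin n → ℝ)) ≤
          ∑ k ∈ S, |x k| * g (Pi.single k 1) := by
        intro S
        induction S using Finset.induction_on with
        | empty => simp [g_zero hs]
        | insert k S hk ih =>
          rw [Finset.sum_insert hk, Finset.sum_insert hk]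
          refine (ha _ _).trans (add_le_add ?_ ih)
          rw [hs]
      have e : ∑ k, x k • (Pi.single k (1 : ℝ) : Fin n → ℝ) = x := by
        funext j
        simp [Finset.sum_apply, Pi.single_apply]
      have h1 := key Finset.univ
      rw [e] at h1
      refine h1.trans ?_
      rw [hc, Finset.mul_sum]
      refine Finset.sum_le_sum fun k _ => mul_le_mul_of_nonneg_right ?_ (hg0 _)
      exact norm_le_pi_norm x k
    have hsub : Metric.ball (0 : Fin n → ℝ) (1 / (c + 1)) ⊆ {x | g x < 1} := by
      intro x hx
      rw [mem_ball_zero_iff, lt_div_iff₀ (by positivity)] at hx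
      refine (hle x).trans_lt ?_
      nlinarith [norm_nonneg x]
    have hz : volume (Metric.ball (0 : Fin n → ℝ) (1 / (c + 1))) = 0 :=
      measure_mono_null hsub hvg
    have hpos : 0 < volume (Metric.ball (0 : Fin n → ℝ) (1 / (c + 1))) :=
      Metric.measure_ball_pos _ _ (by positivity)
    rw [hz] at hpos
    exact lt_irrefl _ hpos
  -- the twisted integrals
  have htw : ∀ ε : Fin n → Bool, Integrable (fun x => Real.exp (-g (tw ε x))) ∧
      ∫ x, Real.exp (-g (tw ε x)) = ∫ x, Real.exp (-g x) := by
    intro ε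
    have hemb : MeasurableEmbedding (tw ε : (Fin n → ℝ) → (Fin n → ℝ)) :=
      (MeasurableEquiv.ofInvolutive (tw ε) (tw_tw ε) (tw_mp ε).measurable).measurableEmbedding
    exact ⟨((tw_mp ε).integrable_comp_emb hemb (g := fun x => Real.exp (-g x))).2 hint,
      (tw_mp ε).integral_comp hemb fun x => Real.exp (-g x)⟩
  have hle : ∀ x, Real.exp (-gav g x) ≤ av fun ε => Real.exp (-g (tw ε x)) := by
    intro x
    have hcard : (∑ _ε : Fin n → Bool, (1 / 2 ^ n : ℝ)) = 1 := by
      simp [Finset.card_univ]
    have h1 := convexOn_exp.map_sum_le (t := (Finset.univ : Finset (Fin n → Bool)))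
      (w := fun _ => (1 / 2 ^ n : ℝ)) (p := fun ε => -g (tw ε x)) (fun _ _ => by positivity)
      hcard (fun _ _ => Set.mem_univ _)
    have e1 : (∑ ε : Fin n → Bool, (1 / 2 ^ n : ℝ) • -g (tw ε x)) = -gav g x := by
      simp only [gav, av, smul_eq_mul, ← Finset.mul_sum, Finset.sum_neg_distrib]
      ring
    have e2 : (∑ ε : Fin n → Bool, (1 / 2 ^ n : ℝ) • Real.exp (-g (tw ε x))) =
        av fun ε => Real.exp (-g (tw ε x)) := by
      simp only [av, smul_eq_mul, ← Finset.mul_sum]
      ring
    rw [e1, e2] at h1
    exact h1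
  have hintav : Integrable fun x => av fun ε : Fin n → Bool => Real.exp (-g (tw ε x)) := by
    unfold av
    exact (integrable_finsetSum _ fun ε _ => (htw ε).1).div_const _
  have hval : ∫ x, (av fun ε : Fin n → Bool => Real.exp (-g (tw ε x))) =
      ∫ x, Real.exp (-g x) := by
    unfold av
    rw [integral_div, integral_finsetSum _ fun ε _ => (htw ε).1]
    rw [Finset.sum_congr rfl fun ε _ => (htw ε).2]
    simp [Finset.card_univ]
  rw [← hval]
  exact integral_mono_of_nonneg (Filter.Eventually.of_forall fun x => (Real.exp_pos _).le) hintav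
    (Filter.Eventually.of_forall hle)

end Pool.Agent.W418.RA.Hol
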